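import Pool.Agent.K1H22.DF.Stm

set_option autoImplicit false

/-! Upper bounds (constructions) of project DF: `t_U3 : S_U3`, `t_U4 : S_U4`. -/

namespace Pool.Agent.K1H94.DF

open Pool.Agent.K1H22.DF

section reach

variable {V : Type*} {G : SimpleGraph V} {S : Finset V}

lemma reach_refl (j : ℕ) (u : V) : Reach G S j u u := by
  cases j with
  | zero => rfl
  | succ j => exact Or.inl rfl

lemma reach_mono {i j : ℕ} (h : i ≤ j) {u v : V} (hr : Reach G S i u v) : Reach G S j u v := by
  induction j generalizing i u with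
  | zero =>
    obtain rfl : i = 0 := by omega
    exact hr
  | succ j ih =>
    cases i with
    | zero =>
      have : u = v := hr
      exact Or.inl this
    | succ i =>
      rcases hr with hr | ⟨x, hx, ha, hr⟩
      · exact Or.inl hr
      · exact Or.inr ⟨x, hx, ha, ih (by omega) hr⟩

lemma reach_trans {i j : ℕ} {u x v : V} (h1 : Reach G S i u x) (h2 : Reach G S j x v) :
    Reach G S (i + j) u v := by
  induction i generalizing u with
  | zero =>
    have : u = x := h1
    subst this
    simpa using h2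
  | succ i ih =>
    rcases h1 with h1 | ⟨y, hy, ha, h1⟩
    · subst h1
      exact reach_mono (by omega) h2
    · have h3 := ih h1
      have h4 : Reach G S (i + j + 1) u v := Or.inr ⟨y, hy, ha, h3⟩
      have e : i + 1 + j = i + j + 1 := by omega
      rw [e]
      exact h4

lemma reach_one {u v : V} (hv : v ∉ S) (ha : G.Adj u v) : Reach G S 1 u v :=
  Or.inr ⟨v, hv, ha, rfl⟩

lemma reach_two {u x v : V} (hx : x ∉ S) (hv : v ∉ S) (h1 : G.Adj u x) (h2 : G.Adj x v) :
    Reach G S 2 u v :=
  reach_trans (reach_one hx h1) (reach_one hv h2)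

end reach

/-! ### diameter 3 -/

lemma exists_not_mem_of_card {α : Type*} [DecidableEq α] (A S : Finset α) (h : S.card < A.card) :
    ∃ x ∈ A, x ∉ S := by
  by_contra hcon
  push Not at hcon
  exact absurd (Finset.card_le_card (show A ⊆ S from hcon)) (by omega)

theorem t_U3 : S_U3 := by
  classical
  intro k n hk hn
  refine ⟨SimpleGraph.fromRel (fun u v : Fin n => u.1 < k ∧ k ≤ v.1), ?_, ?_⟩
  · intro S hS u v hu hv
    have hA : ∃ g : Fin n, g.1 < k ∧ g ∉ S := by
      obtain ⟨x, hx, hxS⟩ := exists_not_mem_of_card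
        (Finset.univ.filter (fun v : Fin n => v.1 < k)) S (by
          rw [hS]
          have : (Finset.univ.filter (fun v : Fin n => v.1 < k)).card = k := by
            rw [Fin.card_filter_val_lt]
            omega
          omega)
      exact ⟨x, (Finset.mem_filter.1 hx).2, hxS⟩
    have hB : ∃ g : Fin n, k ≤ g.1 ∧ g ∉ S := by
      obtain ⟨x, hx, hxS⟩ := exists_not_mem_of_card
        (Finset.univ.filter (fun v : Fin n => ¬ v.1 < k)) S (by
          rw [hS]
          have h1 : (Finset.univ.filter (fun v : Fin n => v.1 < k)).card = k := by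
            rw [Fin.card_filter_val_lt]
            omega
          have h2 := Finset.card_filter_add_card_filter_not
            (s := (Finset.univ : Finset (Fin n))) (fun v : Fin n => v.1 < k)
          rw [h1, Finset.card_univ, Fintype.card_fin] at h2
          omega)
      exact ⟨x, not_lt.1 (Finset.mem_filter.1 hx).2, hxS⟩
    obtain ⟨a, ha, haS⟩ := hA
    obtain ⟨b, hb, hbS⟩ := hB
    have adj : ∀ x y : Fin n, x.1 < k → k ≤ y.1 →
        (SimpleGraph.fromRel (fun u v : Fin n => u.1 < k ∧ k ≤ v.1)).Adj x y := by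
      intro x y hx hy
      rw [SimpleGraph.fromRel_adj]
      exact ⟨fun h => by subst h; omega, Or.inl ⟨hx, hy⟩⟩
    rcases lt_or_ge u.1 k with h1 | h1 <;> rcases lt_or_ge v.1 k with h2 | h2
    · exact reach_mono (by omega) (reach_two hbS hv (adj u b h1 hb) (adj v b h2 hb).symm)
    · exact reach_mono (by omega) (reach_one hv (adj u v h1 h2))
    · exact reach_mono (by omega) (reach_one hv (adj v u h2 h1).symm)
    · exact reach_mono (by omega) (reach_two haS hv (adj a u ha h1).symm (adj a v ha h2))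
  · have hkn : k ≤ n := by omega
    have hsub : (SimpleGraph.fromRel (fun u v : Fin n => u.1 < k ∧ k ≤ v.1)).edgeSet ⊆
        Set.range (fun q : Fin k × Fin n => s(Fin.castLE hkn q.1, q.2)) := by
      intro e he
      induction e using Sym2.ind with
      | _ x y =>
        rw [SimpleGraph.mem_edgeSet, SimpleGraph.fromRel_adj] at he
        rcases he.2 with h | h
        · exact ⟨(⟨x.1, h.1⟩, y), rfl⟩
        · exact ⟨(⟨y.1, h.1⟩, x), Sym2.eq_swap⟩
    have h1 := Set.ncard_le_ncard hsub (Set.toFinite _)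
    have h2 : (Set.range (fun q : Fin k × Fin n => s(Fin.castLE hkn q.1, q.2))).ncard ≤ k * n := by
      rw [← Set.image_univ]
      refine (Set.ncard_image_le (Set.toFinite _)).trans ?_
      rw [Set.ncard_univ, Nat.card_eq_fintype_card, Fintype.card_prod, Fintype.card_fin,
        Fintype.card_fin]
    exact_mod_cast h1.trans h2

/-! ### diameter 4 -/

/-- the relation -/
def rel (k n : ℕ) (u v : Fin n) : Prop :=
  (u.1 < k ∧ v.1 < k) ∨ (v.1 < k ∧ k ≤ u.1 ∧ ((u.1 - k) % k = v.1 ∨ (n - k) / k ≤ (u.1 - k) / k)) ∨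
    (k ≤ u.1 ∧ k ≤ v.1 ∧ (u.1 - k) / k = (v.1 - k) / k)

/-- the graph -/
def G4 (k n : ℕ) : SimpleGraph (Fin n) := SimpleGraph.fromRel (rel k n)

lemma adj4 {k n : ℕ} {u v : Fin n} (hne : u ≠ v) (h : rel k n u v) : (G4 k n).Adj u v := by
  unfold G4
  rw [SimpleGraph.fromRel_adj]
  exact ⟨hne, Or.inl h⟩

lemma adm4 (k n : ℕ) (hk : 1 ≤ k) (hn : 2 * k ≤ n) : AdmR 4 k (G4 k n) := by
  classical
  intro S hS u v hu hv
  set f : Fin n → ℕ := fun v => if v.1 < k then v.1 else (v.1 - k) % k with hf
  obtain ⟨l, hl, hlS⟩ := exists_not_mem_of_card (Finset.range k) (S.image f) (by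
    have := Finset.card_image_le (s := S) (f := f)
    rw [Finset.card_range]
    omega)
  rw [Finset.mem_range] at hl
  have hnot : ∀ x : Fin n, f x = l → x ∉ S := fun x hx hxS =>
    hlS (Finset.mem_image.2 ⟨x, hxS, hx⟩)
  set g : Fin n := ⟨l, by omega⟩ with hg
  have hgS : g ∉ S := hnot g (by simp [hf, hg, hl])
  -- every vertex has a route to `g` and back
  have key : ∀ w : Fin n, w ∉ S → Reach (G4 k n) S 2 w g ∧ Reach (G4 k n) S 2 g w := by
    intro w hw
    by_cases hwg : w = g
    · subst hwg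
      exact ⟨reach_refl _ _, reach_refl _ _⟩
    rcases lt_or_ge w.1 k with h1 | h1
    · have ha : (G4 k n).Adj w g := adj4 hwg (Or.inl ⟨h1, hl⟩)
      exact ⟨reach_mono (by omega) (reach_one hgS ha), reach_mono (by omega) (reach_one hw ha.symm)⟩
    · by_cases h2 : (w.1 - k) % k = l ∨ (n - k) / k ≤ (w.1 - k) / k
      · have ha : (G4 k n).Adj w g := adj4 hwg (Or.inr (Or.inl ⟨hl, h1, h2⟩))
        exact ⟨reach_mono (by omega) (reach_one hgS ha),
          reach_mono (by omega) (reach_one hw ha.symm)⟩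
      · push Not at h2
        obtain ⟨h2, h3⟩ := h2
        have h4 : k + (w.1 - k) / k * k + l < n := by
          have h5 : ((w.1 - k) / k + 1) * k ≤ (n - k) / k * k := Nat.mul_le_mul_right k h3
          have h6 := Nat.div_mul_le_self (n - k) k
          have h7 : ((w.1 - k) / k + 1) * k = (w.1 - k) / k * k + k := by ring
          omega
        set w' : Fin n := ⟨k + (w.1 - k) / k * k + l, h4⟩ with hw'
        have e0 : w'.1 - k = l + k * ((w.1 - k) / k) := by
          simp only [hw']
          rw [Nat.mul_comm k]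
          omega
        have e1 : (w'.1 - k) % k = l := by
          rw [e0, Nat.add_mul_mod_self_left, Nat.mod_eq_of_lt hl]
        have e2 : (w'.1 - k) / k = (w.1 - k) / k := by
          rw [e0, Nat.add_mul_div_left _ _ (by omega : 0 < k), Nat.div_eq_of_lt hl, Nat.zero_add]
        have e3 : k ≤ w'.1 := by
          simp only [hw']
          omega
        have hw'S : w' ∉ S := hnot w' (by
          simp only [hf]
          rw [if_neg (by omega), e1])
        have hne : w ≠ w' := by
          intro h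
          apply h2
          rw [← e1, ← h]
        have hne2 : w' ≠ g := by
          intro h
          have : w'.1 = l := by rw [h]
          omega
        have a1 : (G4 k n).Adj w w' := adj4 hne (Or.inr (Or.inr ⟨h1, e3, e2.symm⟩))
        have a2 : (G4 k n).Adj w' g := adj4 hne2 (Or.inr (Or.inl ⟨hl, e3, Or.inl e1⟩))
        exact ⟨reach_two hw'S hgS a1 a2, reach_two hw'S hw a2.symm a1.symm⟩
  exact reach_trans (key u hu).1 (key v hv).2

/-- the graph of the clusters -/
def Hc (k n : ℕ) : SimpleGraph (Fin n) where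
  Adj u v := u ≠ v ∧ k ≤ u.1 ∧ k ≤ v.1 ∧ (u.1 - k) / k = (v.1 - k) / k
  symm := by
    constructor
    rintro u v ⟨h1, h2, h3, h4⟩
    exact ⟨h1.symm, h3, h2, h4.symm⟩
  loopless := ⟨fun u h => h.1 rfl⟩

lemma pos_inj {k a b : ℕ} (h1 : a / k = b / k) (h2 : a % k = b % k) : a = b := by
  rw [← Nat.div_add_mod a k, ← Nat.div_add_mod b k, h1, h2]

lemma Hc_card (k n : ℕ) (hk : 1 ≤ k) : 2 * (Hc k n).edgeSet.ncard ≤ n * (k - 1) := by
  classical
  have h1 := (Hc k n).sum_degrees_eq_twice_card_edges
  have h2 : (Hc k n).edgeSet.ncard = (Hc k n).edgeFinset.card := by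
    rw [← SimpleGraph.coe_edgeFinset, Set.ncard_coe_finset]
  rw [h2, ← h1]
  have h3 : ∀ v : Fin n, (Hc k n).degree v ≤ k - 1 := by
    intro v
    rw [← SimpleGraph.card_neighborFinset_eq_degree]
    have h4 : ((Hc k n).neighborFinset v).card ≤ ((Finset.range k).erase ((v.1 - k) % k)).card := by
      refine Finset.card_le_card_of_injOn (fun u => (u.1 - k) % k) ?_ ?_
      · intro u hu
        rw [Finset.mem_coe, SimpleGraph.mem_neighborFinset] at hu
        obtain ⟨a1, a2, a3, a4⟩ := hu
        rw [Finset.mem_coe, Finset.mem_erase, Finset.mem_range]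
        refine ⟨fun h => a1 ?_, Nat.mod_lt _ (by omega)⟩
        have := pos_inj a4 h.symm
        apply Fin.ext
        omega
      · intro u hu w hw huw
        rw [Finset.mem_coe, SimpleGraph.mem_neighborFinset] at hu hw
        have := pos_inj (hu.2.2.2.symm.trans hw.2.2.2) huw
        apply Fin.ext
        have := hu.2.2.1
        have := hw.2.2.1
        omega
    rw [Finset.card_erase_of_mem (Finset.mem_range.2 (Nat.mod_lt _ (by omega))),
      Finset.card_range] at h4
    exact h4
  calc ∑ v : Fin n, (Hc k n).degree v ≤ ∑ _v : Fin n, (k - 1) := Finset.sum_le_sum fun v _ => h3 v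
    _ = n * (k - 1) := by rw [Finset.sum_const, Finset.card_univ, Fintype.card_fin, smul_eq_mul]

lemma left_card (k n : ℕ) (hk : 1 ≤ k) (hn : 2 * k ≤ n) :
    {u : Fin n | k ≤ u.1 ∧ (n - k) / k ≤ (u.1 - k) / k}.ncard ≤ k := by
  classical
  have h : ({u : Fin n | k ≤ u.1 ∧ (n - k) / k ≤ (u.1 - k) / k}).ncard ≤
      ((Finset.range k : Finset ℕ) : Set ℕ).ncard := by
    refine Set.ncard_le_ncard_of_injOn (fun u => (u.1 - k) % k) ?_ ?_ (Finset.finite_toSet _)
    · intro u _
      simp only [Finset.coe_range, Set.mem_Iio]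
      exact Nat.mod_lt _ (by omega)
    · intro u hu w hw huw
      have e1 : (u.1 - k) / k = (n - k) / k := le_antisymm (Nat.div_le_div_right (by omega)) hu.2
      have e2 : (w.1 - k) / k = (n - k) / k := le_antisymm (Nat.div_le_div_right (by omega)) hw.2
      have := pos_inj (e1.trans e2.symm) huw
      have := hu.1
      have := hw.1
      apply Fin.ext
      omega
  rw [Set.ncard_coe_finset, Finset.card_range] at h
  exact h

lemma count4 (k n : ℕ) (hk : 1 ≤ k) (hn : 2 * k ≤ n) :
    2 * (G4 k n).edgeSet.ncard ≤ (k + 1) * n + 4 * k ^ 2 := by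
  classical
  have hkn : k ≤ n := by omega
  set L : Set (Fin n) := {u : Fin n | k ≤ u.1 ∧ (n - k) / k ≤ (u.1 - k) / k} with hL
  set R1 : Set (Sym2 (Fin n)) :=
    Set.range (fun q : Fin k × Fin k => s(Fin.castLE hkn q.1, Fin.castLE hkn q.2)) with hR1
  set R2 : Set (Sym2 (Fin n)) :=
    (fun q : Fin k × Fin n => s(Fin.castLE hkn q.1, q.2)) '' ((Set.univ : Set (Fin k)) ×ˢ L) with hR2
  set R3 : Set (Sym2 (Fin n)) :=
    Set.range (fun u : Fin n => s(Fin.castLE hkn ⟨(u.1 - k) % k, Nat.mod_lt _ (by omega)⟩, u))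
    with hR3
  have main : ∀ u v : Fin n, u ≠ v → rel k n u v → s(u, v) ∈ (Hc k n).edgeSet ∪ R1 ∪ R2 ∪ R3 := by
    intro u v hne h
    rcases h with h | h | h
    · exact Or.inl (Or.inl (Or.inr ⟨(⟨u.1, h.1⟩, ⟨v.1, h.2⟩), rfl⟩))
    · rcases h.2.2 with h3 | h3
      · refine Or.inr ⟨u, ?_⟩
        have e : (Fin.castLE hkn ⟨(u.1 - k) % k, Nat.mod_lt _ (by omega)⟩ : Fin n) = v :=
          Fin.ext h3
        change s(Fin.castLE hkn ⟨(u.1 - k) % k, Nat.mod_lt _ (by omega)⟩, u) = s(u, v)
        rw [e, Sym2.eq_swap]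
      · refine Or.inl (Or.inr ⟨(⟨v.1, h.1⟩, u), ⟨Set.mem_univ _, h.2.1, h3⟩, ?_⟩)
        exact Sym2.eq_swap
    · refine Or.inl (Or.inl (Or.inl ?_))
      rw [SimpleGraph.mem_edgeSet]
      exact ⟨hne, h⟩
  have hsub : (G4 k n).edgeSet ⊆ (Hc k n).edgeSet ∪ R1 ∪ R2 ∪ R3 := by
    intro e he
    induction e using Sym2.ind with
    | _ x y =>
      rw [SimpleGraph.mem_edgeSet] at he
      unfold G4 at he
      rw [SimpleGraph.fromRel_adj] at he
      rcases he.2 with h | h
      · exact main x y he.1 h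
      · rw [Sym2.eq_swap]
        exact main y x he.1.symm h
  have c0 := Set.ncard_le_ncard hsub (Set.toFinite _)
  have c1 : R1.ncard ≤ k ^ 2 := by
    rw [hR1, ← Set.image_univ]
    refine (Set.ncard_image_le (Set.toFinite _)).trans ?_
    rw [Set.ncard_univ, Nat.card_eq_fintype_card, Fintype.card_prod, Fintype.card_fin, sq]
  have c2 : R2.ncard ≤ k ^ 2 := by
    refine (Set.ncard_image_le (Set.toFinite _)).trans ?_
    rw [Set.ncard_prod, Set.ncard_univ, Nat.card_eq_fintype_card, Fintype.card_fin, sq]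
    exact Nat.mul_le_mul_left k (left_card k n hk hn)
  have c3 : R3.ncard ≤ n := by
    rw [hR3, ← Set.image_univ]
    refine (Set.ncard_image_le (Set.toFinite _)).trans ?_
    rw [Set.ncard_univ, Nat.card_eq_fintype_card, Fintype.card_fin]
  have c4 := Set.ncard_union_le ((Hc k n).edgeSet ∪ R1 ∪ R2) R3
  have c5 := Set.ncard_union_le ((Hc k n).edgeSet ∪ R1) R2
  have c6 := Set.ncard_union_le (Hc k n).edgeSet R1
  have c7 := Hc_card k n hk
  have c8 : (k + 1) * n = n * (k - 1) + 2 * n := by
    obtain ⟨j, rfl⟩ : ∃ j, k = j + 1 := ⟨k - 1, by omega⟩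
    simp only [Nat.add_sub_cancel]
    ring
  omega

theorem t_U4 : S_U4 := by
  intro k hk
  refine ⟨2 * (k : ℝ) ^ 2, fun n hn => ⟨G4 k n, adm4 k n hk hn, ?_⟩⟩
  have h := count4 k n hk hn
  have h2 : (2 : ℝ) * ((G4 k n).edgeSet.ncard : ℝ) ≤ (k + 1) * n + 4 * (k : ℝ) ^ 2 := by
    exact_mod_cast h
  linarith

end Pool.Agent.K1H94.DF
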